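import Mathlib
import Pool.Agent.H606AC.Basic

set_option autoImplicit false
set_option linter.unusedSectionVars false

/-! # Iterated coronas: a sequence of trees universal for all profile sizes -/

namespace Pool.Agent.R39.Corona

open Finset Classical
open Pool.Agent.H606AC (CS CS_iff)

/-- add a pendant vertex at every vertex -/
def corona {V : Type} (G : SimpleGraph V) : SimpleGraph (V × Bool) where
  Adj p q := (p.2 = false ∧ q.2 = false ∧ G.Adj p.1 q.1) ∨ (p.1 = q.1 ∧ p.2 ≠ q.2)
  symm := ⟨fun _ _ h => h.elim (fun h' => Or.inl ⟨h'.2.1, h'.1, h'.2.2.symm⟩)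
    (fun h' => Or.inr ⟨h'.1.symm, h'.2.symm⟩)⟩
  loopless := ⟨fun _ h => h.elim (fun h' => G.loopless.irrefl _ h'.2.2) (fun h' => h'.2 rfl)⟩

lemma corona_adj {V : Type} {G : SimpleGraph V} {p q : V × Bool} :
    (corona G).Adj p q ↔
      (p.2 = false ∧ q.2 = false ∧ G.Adj p.1 q.1) ∨ (p.1 = q.1 ∧ p.2 ≠ q.2) := Iff.rfl

/-- the corona of a tree is a tree -/
theorem corona_isTree {V : Type} [Fintype V] {G : SimpleGraph V} (hG : G.IsTree) :
    (corona G).IsTree := by
  have hconn : (corona G).Connected := by
    rw [SimpleGraph.connected_iff_exists_forall_reachable]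
    obtain ⟨v0⟩ := hG.connected.nonempty
    refine ⟨(v0, false), ?_⟩
    let φ : G →g corona G :=
      { toFun := fun v => (v, false)
        map_rel' := fun h => Or.inl ⟨rfl, rfl, h⟩ }
    have h1 : ∀ v, (corona G).Reachable (v0, false) (v, false) := fun v =>
      (hG.connected.preconnected v0 v).map φ
    rintro ⟨v, b⟩
    cases b with
    | false => exact h1 v
    | true =>
      exact (h1 v).trans (SimpleGraph.Adj.reachable (Or.inr ⟨rfl, by simp⟩))
  rw [SimpleGraph.isTree_iff_connected_and_card]
  refine ⟨hconn, le_antisymm ?_ hconn.card_vert_le_card_edgeSet_add_one⟩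
  have hE := (SimpleGraph.isTree_iff_connected_and_card.1 hG).2
  rw [Nat.card_prod, ← hE, Nat.card_eq_fintype_card (α := Bool), Fintype.card_bool]
  have hsub : (corona G).edgeSet ⊆
      (Sym2.map (fun v : V => (v, false)) '' G.edgeSet) ∪
        ((fun v : V => s((v, false), (v, true))) '' Set.univ) := by
    intro e he
    induction e using Sym2.ind with
    | _ p q =>
      rw [SimpleGraph.mem_edgeSet, corona_adj] at he
      obtain ⟨v, a⟩ := p
      obtain ⟨w, b⟩ := q
      simp only at he
      rcases he with ⟨h1, h2, h3⟩ | ⟨h1, h2⟩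
      · left
        refine ⟨s(v, w), h3, ?_⟩
        rw [Sym2.map_mk, h1, h2]
      · right
        subst h1
        refine ⟨v, trivial, ?_⟩
        simp only
        cases a <;> cases b
        · exact absurd rfl h2
        · rfl
        · exact Sym2.eq_swap
        · exact absurd rfl h2
  have h1 := Set.ncard_le_ncard hsub (Set.toFinite _)
  have h2 := Set.ncard_union_le (Sym2.map (fun v : V => (v, false)) '' G.edgeSet)
    ((fun v : V => s((v, false), (v, true))) '' Set.univ)
  have h3 := Set.ncard_image_le (f := Sym2.map (fun v : V => (v, false))) (s := G.edgeSet)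
    (Set.toFinite _)
  have h4 := Set.ncard_image_le (f := (fun v : V => s((v, false), (v, true))))
    (s := Set.univ) (Set.toFinite _)
  rw [Set.ncard_univ] at h4
  rw [Nat.card_coe_set_eq] at hE ⊢
  rw [Nat.card_coe_set_eq]
  omega

/-- the family of connected `k`-sets -/
noncomputable def ks {V : Type} [Fintype V] (G : SimpleGraph V) (k : ℕ) : Finset (Finset V) :=
  univ.filter (fun U => U.card = k ∧ CS G U)

lemma mem_ks {V : Type} [Fintype V] {G : SimpleGraph V} {k : ℕ} {U : Finset V} :
    U ∈ ks G k ↔ U.card = k ∧ CS G U := by simp [ks]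

/-- lower copy and upper copy -/
def lo {V : Type} (U : Finset V) : Finset (V × Bool) := U ×ˢ {false}
def up {V : Type} (U : Finset V) : Finset (V × Bool) := U ×ˢ {true}

lemma mem_lo {V : Type} {U : Finset V} {p : V × Bool} : p ∈ lo U ↔ p.1 ∈ U ∧ p.2 = false := by
  rw [lo, mem_product, mem_singleton]
lemma mem_up {V : Type} {U : Finset V} {p : V × Bool} : p ∈ up U ↔ p.1 ∈ U ∧ p.2 = true := by
  rw [up, mem_product, mem_singleton]

lemma ks_corona {V : Type} [Fintype V] (G : SimpleGraph V) {k : ℕ} (hk : 2 ≤ k) :
    (ks (corona G) k).card ≤ (ks G k).card + ∑ j ∈ range k, (ks G j).card * 2 ^ j := by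
  have hsub : ks (corona G) k ⊆ (ks G k).image lo ∪
      (range k).biUnion (fun j => (ks G j).biUnion
        (fun U' => U'.powerset.image (fun U'' => lo U' ∪ up U''))) := by
    intro U hU
    rw [mem_ks] at hU
    obtain ⟨hcard, hne, hcut⟩ := hU
    set U1 : Finset V := univ.filter (fun v => (v, false) ∈ U) with hU1
    set U2 : Finset V := univ.filter (fun v => (v, true) ∈ U) with hU2
    have m1 : ∀ v, v ∈ U1 ↔ (v, false) ∈ U := by intro v; simp [hU1]
    have m2 : ∀ v, v ∈ U2 ↔ (v, true) ∈ U := by intro v; simp [hU2]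
    have hUeq : U = lo U1 ∪ up U2 := by
      ext ⟨v, b⟩
      rw [mem_union, mem_lo, mem_up]
      simp only
      rw [m1, m2]
      cases b <;> simp
    have h21 : U2 ⊆ U1 := by
      intro v hv
      rw [m2] at hv
      obtain ⟨a, ha, b, hb, hbX, hadj⟩ := hcut {(v, true)} (by simpa using hv) (by simp)
        (by
          intro h
          have := congrArg card h
          rw [card_singleton, hcard] at this
          omega)
      rw [mem_singleton] at ha
      subst ha
      rw [corona_adj] at hadj
      simp only at hadj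
      rcases hadj with h | ⟨h, h'⟩
      · exact absurd h.1 (by simp)
      · rw [m1, h]
        have hb2 : b.2 = false := by
          cases hb' : b.2 with
          | false => rfl
          | true => rw [hb'] at h'; exact absurd rfl h'
        rw [← hb2]
        exact hb
    have hne1 : U1.Nonempty := by
      obtain ⟨⟨v, b⟩, hv⟩ := hne
      refine ⟨v, ?_⟩
      cases b with
      | false => exact (m1 v).2 hv
      | true => exact h21 ((m2 v).2 hv)
    have hCS : CS G U1 := by
      refine ⟨hne1, ?_⟩
      intro X hX hXn hXne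
      obtain ⟨a, ha, b, hb, hbX, hadj⟩ := hcut (U.filter (fun p => p.1 ∈ X))
        (filter_subset _ _)
        (by
          obtain ⟨x, hx⟩ := hXn
          exact ⟨(x, false), by rw [mem_filter]; exact ⟨(m1 x).1 (hX hx), hx⟩⟩)
        (by
          intro h
          apply hXne
          apply Subset.antisymm hX
          intro y hy
          have h1 : (y, false) ∈ U := (m1 y).1 hy
          rw [← h, mem_filter] at h1
          exact h1.2)
      rw [mem_filter] at ha hbX
      have hbX' : b.1 ∉ X := fun h => hbX ⟨hb, h⟩
      rw [corona_adj] at hadj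
      rcases hadj with ⟨h1, h2, h3⟩ | ⟨h1, _⟩
      · refine ⟨a.1, ha.2, b.1, ?_, hbX', h3⟩
        rw [m1, ← h2]
        exact hb
      · exact absurd (h1 ▸ ha.2) hbX'
    have hcards : U1.card + U2.card = k := by
      rw [← hcard, hUeq, card_union_of_disjoint, lo, up, card_product, card_product]
      · simp
      · rw [disjoint_left]
        intro p hp hp'
        rw [mem_lo] at hp
        rw [mem_up] at hp'
        rw [hp.2] at hp'
        exact absurd hp'.2 (by simp)
    rw [mem_union]
    rcases Nat.eq_zero_or_pos U2.card with h0 | h0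
    · left
      rw [card_eq_zero] at h0
      rw [mem_image]
      refine ⟨U1, mem_ks.2 ⟨?_, hCS⟩, ?_⟩
      · rw [h0, card_empty] at hcards; exact hcards
      · rw [hUeq, h0]
        simp [up]
    · right
      rw [mem_biUnion]
      refine ⟨U1.card, mem_range.2 (by omega), ?_⟩
      rw [mem_biUnion]
      refine ⟨U1, mem_ks.2 ⟨rfl, hCS⟩, ?_⟩
      rw [mem_image]
      exact ⟨U2, mem_powerset.2 h21, hUeq.symm⟩
  refine (card_le_card hsub).trans ((card_union_le _ _).trans (Nat.add_le_add card_image_le ?_))
  refine card_biUnion_le.trans (sum_le_sum (fun j _ => ?_))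
  refine card_biUnion_le.trans ?_
  rw [← smul_eq_mul, ← sum_const]
  refine sum_le_sum (fun U' hU' => ?_)
  refine card_image_le.trans ?_
  rw [card_powerset, (mem_ks.1 hU').1]

/-- finite graphs -/
structure FG where
  V : Type
  fin : Fintype V
  G : SimpleGraph V

instance (X : FG) : Fintype X.V := X.fin

/-- the iterated coronas of a single vertex -/
def TT : ℕ → FG
  | 0 => ⟨Unit, inferInstance, ⊥⟩
  | n + 1 => ⟨(TT n).V × Bool, inferInstance, corona (TT n).G⟩

lemma card_TT (n : ℕ) : Fintype.card (TT n).V = 2 ^ n := by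
  induction n with
  | zero => rfl
  | succ n ih =>
    have : Fintype.card (TT (n + 1)).V = Fintype.card ((TT n).V × Bool) := rfl
    rw [this, Fintype.card_prod, ih, Fintype.card_bool, pow_succ]

lemma TT_isTree (n : ℕ) : (TT n).G.IsTree := by
  induction n with
  | zero =>
    change (⊥ : SimpleGraph Unit).IsTree
    rw [SimpleGraph.isTree_iff_connected_and_card]
    refine ⟨?_, ?_⟩
    · rw [SimpleGraph.connected_iff_exists_forall_reachable]
      exact ⟨(), fun _ => SimpleGraph.Reachable.refl _⟩
    · simp
  | succ n ih => exact corona_isTree ih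

/-- the number of `k`-subtrees is linear in the number of vertices -/
theorem ks_upper (k : ℕ) : ∃ C : ℕ, ∀ n, (ks (TT n).G k).card ≤ C * 2 ^ n := by
  induction k using Nat.strong_induction_on with
  | _ k ih =>
    rcases Nat.lt_or_ge k 2 with hk | hk
    · refine ⟨1, fun n => ?_⟩
      rcases Nat.eq_zero_or_pos k with h0 | h0
      · have : ks (TT n).G k = ∅ := by
          rw [eq_empty_iff_forall_notMem]
          intro U hU
          rw [mem_ks, h0, card_eq_zero] at hU
          have := hU.2.1
          rw [hU.1] at this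
          exact absurd this (by simp)
        rw [this, card_empty]
        exact Nat.zero_le _
      · have hk1 : k = 1 := by omega
        have hsub : ks (TT n).G k ⊆ univ.image (fun v => {v}) := by
          intro U hU
          rw [mem_ks, hk1, card_eq_one] at hU
          obtain ⟨⟨v, hv⟩, _⟩ := hU
          rw [mem_image]
          exact ⟨v, mem_univ _, hv.symm⟩
        refine (card_le_card hsub).trans (card_image_le.trans ?_)
        rw [card_univ, card_TT, one_mul]
    · choose! C hC using ih
      refine ⟨∑ j ∈ range k, C j * 2 ^ j + 2, fun n => ?_⟩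
      induction n with
      | zero =>
        have h1 : (ks (TT 0).G k).card ≤ (univ : Finset (Finset (TT 0).V)).card :=
          card_le_card (subset_univ _)
        rw [card_univ, Fintype.card_finset, card_TT] at h1
        rw [pow_zero, mul_one]
        have h2 : 2 ^ 2 ^ 0 = 2 := by norm_num
        rw [h2] at h1
        exact h1.trans (Nat.le_add_left _ _)
      | succ n ihn =>
        have h1 : (ks (TT (n + 1)).G k).card ≤
            (ks (TT n).G k).card + ∑ j ∈ range k, (ks (TT n).G j).card * 2 ^ j :=
          ks_corona (TT n).G hk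
        have h2 : ∑ j ∈ range k, (ks (TT n).G j).card * 2 ^ j ≤
            (∑ j ∈ range k, C j * 2 ^ j) * 2 ^ n := by
          rw [sum_mul]
          refine sum_le_sum (fun j hj => ?_)
          have := hC j (mem_range.1 hj) n
          calc (ks (TT n).G j).card * 2 ^ j ≤ C j * 2 ^ n * 2 ^ j := Nat.mul_le_mul_right _ this
            _ = C j * 2 ^ j * 2 ^ n := by ring
        calc (ks (TT (n + 1)).G k).card
            ≤ (∑ j ∈ range k, C j * 2 ^ j + 2) * 2 ^ n +
              (∑ j ∈ range k, C j * 2 ^ j) * 2 ^ n := h1.trans (Nat.add_le_add ihn h2)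
          _ ≤ (∑ j ∈ range k, C j * 2 ^ j + 2) * 2 ^ n +
              (∑ j ∈ range k, C j * 2 ^ j + 2) * 2 ^ n :=
              Nat.add_le_add_left (Nat.mul_le_mul_right _ (Nat.le_add_right _ _)) _
          _ = _ := by ring

/-- the images of the embeddings of `S` -/
noncomputable def cop {W V : Type} [Fintype W] [Fintype V] (S : SimpleGraph W)
    (G : SimpleGraph V) : Finset (Finset V) :=
  univ.filter (fun U => ∃ f : S ↪g G, Set.range f = (U : Set V))

lemma mem_cop {W V : Type} [Fintype W] [Fintype V] {S : SimpleGraph W}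
    {G : SimpleGraph V} {U : Finset V} :
    U ∈ cop S G ↔ ∃ f : S ↪g G, Set.range f = (U : Set V) := by simp [cop]

/-- extension of an embedding by a leaf -/
theorem extend {W V : Type} [Fintype W] {S : SimpleGraph W} {G : SimpleGraph V}
    {l a : W} (hl : ∀ w, S.Adj l w ↔ w = a)
    (f : (S.induce ({l}ᶜ : Set W)) ↪g G) (ha : a ∈ ({l}ᶜ : Set W)) :
    ∃ g : S ↪g corona G, Set.range g =
      ((fun v => (v, false)) '' Set.range f) ∪ {(f ⟨a, ha⟩, true)} := by
  let g : W → V × Bool := fun w =>
    if h : w ∈ ({l}ᶜ : Set W) then (f ⟨w, h⟩, false) else (f ⟨a, ha⟩, true)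
  have g1 : ∀ w (h : w ∈ ({l}ᶜ : Set W)), g w = (f ⟨w, h⟩, false) := fun w h => dif_pos h
  have g2 : g l = (f ⟨a, ha⟩, true) := dif_neg (by simp)
  have hmem : ∀ w, w ≠ l → w ∈ ({l}ᶜ : Set W) := fun w h => by simpa using h
  have hinj : Function.Injective g := by
    intro w w' h
    by_cases hw : w = l
    · by_cases hw' : w' = l
      · rw [hw, hw']
      · rw [hw, g2, g1 w' (hmem _ hw')] at h
        exact absurd (congrArg Prod.snd h) (by simp)
    · by_cases hw' : w' = l
      · rw [hw', g2, g1 w (hmem _ hw)] at h
        exact absurd (congrArg Prod.snd h) (by simp)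
      · rw [g1 w (hmem _ hw), g1 w' (hmem _ hw')] at h
        have := f.injective (congrArg Prod.fst h)
        exact congrArg Subtype.val this
  refine ⟨⟨⟨g, hinj⟩, ?_⟩, ?_⟩
  · intro w w'
    simp only [Function.Embedding.coeFn_mk]
    by_cases hw : w = l
    · by_cases hw' : w' = l
      · rw [hw, hw']
        simp
      · rw [hw, g2, g1 w' (hmem _ hw'), corona_adj, hl]
        simp only
        constructor
        · rintro (⟨h, _⟩ | ⟨h, _⟩)
          · exact absurd h (by simp)
          · have := f.injective h
            exact (congrArg Subtype.val this).symm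
        · intro h
          right
          refine ⟨?_, by simp⟩
          congr 1
          exact Subtype.ext h.symm
    · by_cases hw' : w' = l
      · rw [hw', g2, g1 w (hmem _ hw), corona_adj, S.adj_comm w l, hl]
        simp only
        constructor
        · rintro (⟨_, h, _⟩ | ⟨h, _⟩)
          · exact absurd h (by simp)
          · have := f.injective h
            exact congrArg Subtype.val this
        · intro h
          right
          refine ⟨?_, by simp⟩
          congr 1
          exact Subtype.ext h
      · rw [g1 w (hmem _ hw), g1 w' (hmem _ hw'), corona_adj]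
        simp only
        have h1 : G.Adj (f ⟨w, hmem _ hw⟩) (f ⟨w', hmem _ hw'⟩) ↔ S.Adj w w' := by
          rw [f.map_adj_iff]
          exact Iff.rfl
        constructor
        · rintro (⟨_, _, h⟩ | ⟨_, h⟩)
          · exact h1.1 h
          · exact absurd rfl h
        · intro h
          exact Or.inl ⟨trivial, trivial, h1.2 h⟩
  · ext p
    simp only [Set.mem_range, Set.mem_union, Set.mem_image, Set.mem_singleton_iff]
    constructor
    · rintro ⟨w, rfl⟩
      change (∃ x, (∃ y, f y = x) ∧ (x, false) = g w) ∨ g w = _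
      by_cases hw : w = l
      · right; rw [hw, g2]
      · left
        exact ⟨f ⟨w, hmem _ hw⟩, ⟨_, rfl⟩, (g1 w (hmem _ hw)).symm⟩
    · rintro (⟨x, ⟨y, rfl⟩, rfl⟩ | rfl)
      · exact ⟨y.1, g1 y.1 y.2⟩
      · exact ⟨l, g2⟩

/-- every tree on `k + 1` vertices has at least `2 ^ m` copies in `TT (k + m)` -/
theorem cop_lower (k : ℕ) : ∀ (W : Type) [Fintype W] (S : SimpleGraph W), S.IsTree →
    Fintype.card W = k + 1 → ∀ m : ℕ, 2 ^ m ≤ (cop S (TT (k + m)).G).card := by
  induction k with
  | zero =>
    intro W _ S _ hW m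
    rw [Nat.zero_add]
    obtain ⟨w0, hw0⟩ := Fintype.card_eq_one_iff.1 hW
    rw [← card_TT m, ← card_univ, ← card_image_of_injective univ
      (f := fun v : (TT m).V => ({v} : Finset (TT m).V)) (fun a b h => by simpa using h)]
    apply card_le_card
    intro U hU
    rw [mem_image] at hU
    obtain ⟨v, _, rfl⟩ := hU
    rw [mem_cop]
    refine ⟨⟨⟨fun _ => v, ?_⟩, ?_⟩, ?_⟩
    · intro a b _
      rw [hw0 a, hw0 b]
    · intro a b
      have e1 : a = b := by rw [hw0 a, hw0 b]
      subst e1
      exact ⟨fun h => absurd h (SimpleGraph.irrefl _), fun h => absurd h (SimpleGraph.irrefl _)⟩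
    · ext x
      simp only [Set.mem_range, coe_singleton, Set.mem_singleton_iff]
      constructor
      · rintro ⟨_, h⟩; exact h.symm
      · intro h; exact ⟨w0, h.symm⟩
  | succ k ih =>
    intro W _ S hS hW m
    have hnt : Nontrivial W := by
      rw [← Fintype.one_lt_card_iff_nontrivial, hW]
      omega
    obtain ⟨l, hl⟩ := hS.exists_vert_degree_one_of_nontrivial
    obtain ⟨a, hla, hau⟩ := SimpleGraph.degree_eq_one_iff_existsUnique_adj.1 hl
    have hl' : ∀ w, S.Adj l w ↔ w = a := fun w => ⟨hau w, fun h => h ▸ hla⟩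
    have haml : a ∈ ({l}ᶜ : Set W) := by
      simpa using hla.ne.symm
    have hS' : (S.induce ({l}ᶜ : Set W)).IsTree :=
      ⟨hS.connected.induce_compl_singleton_of_degree_eq_one hl,
        hS.isAcyclic.induce _⟩
    have hW' : Fintype.card ({l}ᶜ : Set W) = k + 1 := by
      rw [Fintype.card_compl_set, hW]
      simp
    have h1 := ih ({l}ᶜ : Set W) (S.induce ({l}ᶜ : Set W)) hS' hW' m
    refine h1.trans ?_
    have e : k + 1 + m = (k + m) + 1 := by omega
    rw [e]
    change (cop (S.induce ({l}ᶜ : Set W)) (TT (k + m)).G).card ≤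
      (cop S (corona (TT (k + m)).G)).card
    -- the map
    have hex : ∀ U ∈ cop (S.induce ({l}ᶜ : Set W)) (TT (k + m)).G,
        ∃ U2 ∈ cop S (corona (TT (k + m)).G), ∀ v, v ∈ U ↔ (v, false) ∈ U2 := by
      intro U hU
      obtain ⟨f, hf⟩ := mem_cop.1 hU
      obtain ⟨g, hg⟩ := extend hl' f haml
      refine ⟨univ.filter (fun p => p ∈ Set.range g), ?_, ?_⟩
      · rw [mem_cop]
        refine ⟨g, ?_⟩
        ext p
        simp
      · intro v
        rw [mem_filter, hg, hf]
        simp
    choose! F hF1 hF2 using hex
    apply card_le_card_of_injOn F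
    · intro U hU
      exact hF1 U hU
    · intro U hU U' hU' he
      ext v
      rw [hF2 U hU v, hF2 U' hU' v, he]

end Pool.Agent.R39.Corona
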