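import Pool.Agent.R39.DomStruct
import Pool.Agent.H606AC.Count

set_option autoImplicit false
set_option linter.unusedSectionVars false

/-! # Many connected sets from a small dominating set -/

namespace Pool.Agent.R39

open Finset Classical
open Pool.Agent.H606AC (CS CC II OO CS_iff mem_CC mem_II mem_OO)

variable {V : Type} [Fintype V] {G : SimpleGraph V}

/-- a connected set and its complement give a small dominating set -/
lemma exists_dom (hdeg : ∀ v : V, 3 ≤ (univ.filter (G.Adj v)).card) {W : Finset V}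
    (hW : CS G W) (h2 : 2 ≤ W.card) :
    ∃ D : Finset V, D.card ≤ Wᶜ.card + 2 * (II G W).card ∧
      ∀ v, v ∉ D → ∃ w ∈ D, G.Adj v w := by
  have hH : (G.induce (W : Set V)).Connected := (CS_iff W).mp hW
  have hcard : Fintype.card ↥(W : Set V) = W.card := by simp
  obtain ⟨B, hB1, hB2⟩ := exists_struct (G.induce (W : Set V)) hH (by rw [hcard]; exact h2)
  set f : ↥(W : Set V) ↪ V := Function.Embedding.subtype _ with hf
  have hNC : (NC (G.induce (W : Set V))).card ≤ (II G W).card := by
    rw [← card_map f]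
    apply card_le_card
    intro v hv
    rw [mem_map] at hv
    obtain ⟨⟨x, hx⟩, hx1, rfl⟩ := hv
    rw [mem_NC] at hx1
    rw [mem_II]
    refine ⟨hx, ?_⟩
    change CS G (W.erase x)
    rw [CS_iff]
    -- transport
    let e : (G.induce (W : Set V)).induce ({⟨x, hx⟩}ᶜ : Set ↥(W : Set V)) ≃g
        G.induce ((W.erase x : Finset V) : Set V) :=
      { toFun := fun y => ⟨y.1.1, by
          have h1 := y.2
          have h3 : y.1 ≠ ⟨x, hx⟩ := fun h => h1 (Set.mem_singleton_iff.2 h)
          have h4 : y.1.1 ≠ x := fun h => h3 (Subtype.ext h)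
          have h5 := y.1.2
          simp only [coe_erase, Set.mem_sdiff, mem_coe, Set.mem_singleton_iff]
          exact ⟨h5, h4⟩⟩
        invFun := fun y => ⟨⟨y.1, by
          have h1 := y.2
          simp only [coe_erase, Set.mem_sdiff, mem_coe, Set.mem_singleton_iff] at h1
          exact h1.1⟩, by
          have h1 := y.2
          simp only [coe_erase, Set.mem_sdiff, mem_coe, Set.mem_singleton_iff] at h1
          simp only [Set.mem_compl_iff, Set.mem_singleton_iff]
          intro h
          exact h1.2 (congrArg Subtype.val h)⟩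
        left_inv := fun y => rfl
        right_inv := fun y => rfl
        map_rel_iff' := by intro a b; exact Iff.rfl }
    exact e.connected_iff.mp hx1
  refine ⟨Wᶜ ∪ B.map f, ?_, ?_⟩
  · have h1 := card_union_le Wᶜ (B.map f)
    rw [card_map] at h1
    omega
  · intro v hv
    rw [mem_union, not_or, mem_compl, not_not, mem_map] at hv
    obtain ⟨hvW, hvB⟩ := hv
    have hvB' : (⟨v, hvW⟩ : ↥(W : Set V)) ∉ B := fun h => hvB ⟨_, h, rfl⟩
    rcases hB2 _ hvB' with ⟨w, hw, hadj⟩ | hle
    · exact ⟨w.1, mem_union_right _ (mem_map.2 ⟨w, hw, rfl⟩), by simpa using hadj⟩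
    · by_contra hno
      push Not at hno
      have hsub : univ.filter (G.Adj v) ⊆
          ((G.induce (W : Set V)).neighborFinset ⟨v, hvW⟩).map f := by
        intro w hw
        rw [mem_filter] at hw
        have hwW : w ∈ W := by
          by_contra h
          exact hno w (mem_union_left _ (mem_compl.2 h)) hw.2
        rw [mem_map]
        refine ⟨⟨w, hwW⟩, ?_, rfl⟩
        rw [SimpleGraph.mem_neighborFinset]
        simpa using hw.2
      have h1 := card_le_card hsub
      rw [card_map] at h1
      have h3 := hdeg v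
      have hle' : ((G.induce (W : Set V)).neighborFinset ⟨v, hvW⟩).card ≤ 2 := by
        refine le_trans (le_of_eq ?_) hle
        apply congrArg
        ext x
        simp only [SimpleGraph.mem_neighborFinset]
      exact absurd (le_trans h3 (le_trans h1 hle')) (by norm_num)

lemma CS_insert' {Q : Finset V} (hQ : CS G Q) {a : V} (ha : a ∈ Q ∨ ∃ q ∈ Q, G.Adj q a) :
    CS G (insert a Q) := by
  rcases ha with h | ⟨q, hq, hadj⟩
  · rwa [insert_eq_of_mem h]
  · exact hQ.insert hq hadj

/-- connected dominating sets -/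
lemma exists_conn_dom (hG : CS G univ) {D : Finset V} (hD : ∀ v, v ∉ D → ∃ w ∈ D, G.Adj v w)
    (hne : D.Nonempty) : ∃ Q : Finset V, CS G Q ∧ D ⊆ Q ∧ Q.card ≤ 3 * D.card := by
  have key : ∀ (n : ℕ) (Q : Finset V), (D \ Q).card = n → CS G Q →
      Q.card + 3 * (D \ Q).card ≤ 3 * D.card →
      ∃ Q' : Finset V, CS G Q' ∧ D ⊆ Q' ∧ Q'.card ≤ 3 * D.card := by
    intro n
    induction n using Nat.strong_induction_on with
    | _ n ih =>
      intro Q hn hQ hle
      by_cases hsub : D ⊆ Q
      · exact ⟨Q, hQ, hsub, by omega⟩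
      -- closed neighbourhood of Q
      set X : Finset V := univ.filter (fun v => v ∈ Q ∨ ∃ q ∈ Q, G.Adj q v) with hX
      set Y : Finset V := univ.filter (fun v => ∃ d ∈ D \ Q, v = d ∨ G.Adj v d) with hY
      have hXY : ∀ v, v ∈ X ∨ v ∈ Y := by
        intro v
        by_cases hv : v ∈ D
        · by_cases hvQ : v ∈ Q
          · left; rw [hX, mem_filter]; exact ⟨mem_univ _, Or.inl hvQ⟩
          · right; rw [hY, mem_filter]; exact ⟨mem_univ _, v, mem_sdiff.2 ⟨hv, hvQ⟩, Or.inl rfl⟩
        · obtain ⟨w, hw, hadj⟩ := hD v hv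
          by_cases hwQ : w ∈ Q
          · left; rw [hX, mem_filter]; exact ⟨mem_univ _, Or.inr ⟨w, hwQ, hadj.symm⟩⟩
          · right; rw [hY, mem_filter]
            exact ⟨mem_univ _, w, mem_sdiff.2 ⟨hw, hwQ⟩, Or.inr hadj⟩
      -- an a in X and b in Y with a = b or a adjacent to b
      have hab : ∃ a ∈ X, ∃ b ∈ Y, a = b ∨ G.Adj a b := by
        by_cases hXu : X = univ
        · obtain ⟨d, hd⟩ : (D \ Q).Nonempty := by
            rw [nonempty_iff_ne_empty]
            intro h
            exact hsub (sdiff_eq_empty_iff_subset.mp h)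
          refine ⟨d, by rw [hXu]; exact mem_univ _, d, ?_, Or.inl rfl⟩
          rw [hY, mem_filter]
          exact ⟨mem_univ _, d, hd, Or.inl rfl⟩
        · obtain ⟨q, hq⟩ := hQ.1
          obtain ⟨a, ha, b, hb, hbX, hadj⟩ := hG.2 X (subset_univ _)
            ⟨q, by rw [hX, mem_filter]; exact ⟨mem_univ _, Or.inl hq⟩⟩ hXu
          exact ⟨a, ha, b, (hXY b).resolve_left hbX, Or.inr hadj⟩
      obtain ⟨a, ha, b, hb, hab⟩ := hab
      rw [hX, mem_filter] at ha
      rw [hY, mem_filter] at hb
      obtain ⟨_, d, hd, hbd⟩ := hb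
      have hd' := mem_sdiff.1 hd
      have h1 : CS G (insert a Q) := CS_insert' hQ ha.2
      have h2 : CS G (insert b (insert a Q)) := by
        refine CS_insert' h1 ?_
        rcases hab with rfl | hab
        · left; exact mem_insert_self _ _
        · right; exact ⟨a, mem_insert_self _ _, hab⟩
      have h3 : CS G (insert d (insert b (insert a Q))) := by
        refine CS_insert' h2 ?_
        rcases hbd with rfl | hbd
        · left; exact mem_insert_self _ _
        · right; exact ⟨b, mem_insert_self _ _, hbd⟩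
      obtain ⟨Q', hQ'⟩ : ∃ Q', Q' = insert d (insert b (insert a Q)) := ⟨_, rfl⟩
      rw [← hQ'] at h3
      have hc1 : Q'.card ≤ Q.card + 3 := by
        rw [hQ']
        have e1 := card_insert_le d (insert b (insert a Q))
        have e2 := card_insert_le b (insert a Q)
        have e3 := card_insert_le a Q
        omega
      have hc2 : (D \ Q').card + 1 ≤ (D \ Q).card := by
        have : D \ Q' ⊂ D \ Q := by
          refine ⟨?_, ?_⟩
          · intro x hx
            rw [mem_sdiff] at hx ⊢
            refine ⟨hx.1, fun h => hx.2 ?_⟩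
            rw [hQ']
            simp only [mem_insert]
            tauto
          · intro h
            have := h hd
            rw [mem_sdiff] at this
            exact this.2 (by rw [hQ']; exact mem_insert_self _ _)
        exact card_lt_card this
      have hlt : (D \ Q').card < n := by rw [← hn]; omega
      exact ih _ hlt Q' rfl h3 (by omega)
  obtain ⟨d, hd⟩ := hne
  have h1 : (D \ {d}).card + 1 = D.card := by
    rw [sdiff_singleton_eq_erase, card_erase_of_mem hd]
    have : 0 < D.card := card_pos.2 ⟨d, hd⟩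
    omega
  exact key _ {d} rfl (H606AC.CS_singleton d) (by rw [card_singleton]; omega)

/-- all supersets of a connected dominating set are connected -/
lemma card_ge_of_dom {Q : Finset V} (hQ : CS G Q) (hD : ∀ v, v ∉ Q → ∃ w ∈ Q, G.Adj v w) :
    2 ^ (Qᶜ.card) ≤ (CC G).card := by
  rw [← card_powerset]
  have hcs : ∀ F : Finset V, CS G (Q ∪ F) := by
    intro F
    induction F using Finset.induction with
    | empty => simpa using hQ
    | insert a F ha ih =>
      rw [union_insert]
      refine CS_insert' ih ?_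
      by_cases haQ : a ∈ Q
      · left; exact mem_union_left _ haQ
      · obtain ⟨w, hw, hadj⟩ := hD a haQ
        right; exact ⟨w, mem_union_left _ hw, hadj.symm⟩
  refine card_le_card_of_injOn (fun F => Q ∪ F) ?_ ?_
  · intro F _
    exact mem_CC.2 (hcs F)
  · intro F hF F' hF' he
    have hF := mem_powerset.1 (mem_coe.1 hF)
    have hF' := mem_powerset.1 (mem_coe.1 hF')
    have he' : Q ∪ F = Q ∪ F' := he
    ext x
    have h1 : x ∈ Q ∪ F ↔ x ∈ Q ∪ F' := by rw [he']
    rw [mem_union, mem_union] at h1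
    constructor
    · intro hx
      have := mem_compl.1 (hF hx)
      tauto
    · intro hx
      have := mem_compl.1 (hF' hx)
      tauto

/-- the lower bound for the number of connected sets -/
lemma card_lower (hG : CS G univ) (hdeg : ∀ v : V, 3 ≤ (univ.filter (G.Adj v)).card)
    {W : Finset V} (hW : CS G W) :
    2 ^ (Fintype.card V) ≤ (CC G).card * 2 ^ (3 * Wᶜ.card + 6 * (II G W).card) := by
  have hn : 2 ≤ Fintype.card V := by
    obtain ⟨v, _⟩ := hW.1
    have h1 := hdeg v
    have h2 := card_le_univ (univ.filter (G.Adj v))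
    omega
  obtain ⟨Q, hQ, hQD, hQc⟩ : ∃ Q : Finset V, CS G Q ∧ (∀ v, v ∉ Q → ∃ w ∈ Q, G.Adj v w) ∧
      Q.card ≤ 3 * Wᶜ.card + 6 * (II G W).card := by
    by_cases h2 : 2 ≤ W.card
    · obtain ⟨D, hD1, hD2⟩ := exists_dom hdeg hW h2
      have hDne : D.Nonempty := by
        obtain ⟨v, _⟩ := hW.1
        by_cases hv : v ∈ D
        · exact ⟨v, hv⟩
        · obtain ⟨w, hw, _⟩ := hD2 v hv
          exact ⟨w, hw⟩
      obtain ⟨Q, h3, h4, h5⟩ := exists_conn_dom hG hD2 hDne
      refine ⟨Q, h3, ?_, by omega⟩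
      intro v hv
      obtain ⟨w, hw, hadj⟩ := hD2 v (fun h => hv (h4 h))
      exact ⟨w, h4 hw, hadj⟩
    · refine ⟨univ, hG, fun v hv => absurd (mem_univ v) hv, ?_⟩
      rw [card_univ, card_compl]
      omega
  have h1 := card_ge_of_dom hQ hQD
  have h2 : Fintype.card V ≤ Qᶜ.card + (3 * Wᶜ.card + 6 * (II G W).card) := by
    rw [card_compl]
    omega
  calc 2 ^ (Fintype.card V) ≤ 2 ^ (Qᶜ.card + (3 * Wᶜ.card + 6 * (II G W).card)) :=
        Nat.pow_le_pow_right (by norm_num) h2
    _ = 2 ^ (Qᶜ.card) * 2 ^ (3 * Wᶜ.card + 6 * (II G W).card) := pow_add _ _ _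
    _ ≤ _ := Nat.mul_le_mul_right _ h1

/-- the averaged form -/
lemma exists_good (hG : CS G univ) :
    ∃ W ∈ CC G, (CC G).card * (3 * Wᶜ.card + 6 * (II G W).card) ≤
      9 * ∑ W ∈ CC G, Wᶜ.card := by
  have hne : (CC G).Nonempty := ⟨univ, mem_CC.2 hG⟩
  obtain ⟨W, hW, hmin⟩ := exists_min_image (CC G) (fun W => 3 * Wᶜ.card + 6 * (II G W).card) hne
  refine ⟨W, hW, ?_⟩
  have h1 : (CC G).card * (3 * Wᶜ.card + 6 * (II G W).card) ≤
      ∑ W ∈ CC G, (3 * Wᶜ.card + 6 * (II G W).card) := by
    rw [← smul_eq_mul, ← sum_const]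
    exact sum_le_sum (fun W' hW' => hmin W' hW')
  have h2 : ∑ W ∈ CC G, (II G W).card ≤ ∑ W ∈ CC G, Wᶜ.card := by
    rw [H606AC.sum_IO]
    exact sum_le_sum (fun W' _ => card_filter_le _ _)
  rw [sum_add_distrib, ← mul_sum, ← mul_sum] at h1
  omega

/-- the numerical inequality: the average number of missing vertices is at least `0.07 n` -/
theorem missing_ge (hG : CS G univ) (hdeg : ∀ v : V, 3 ≤ (univ.filter (G.Adj v)).card) :
    (7 / 100 : ℝ) * Fintype.card V * (CC G).card ≤ ∑ W ∈ CC G, (Wᶜ.card : ℝ) := by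
  have hNpos : 0 < (CC G).card := card_pos.2 ⟨univ, mem_CC.2 hG⟩
  set N : ℝ := ((CC G).card : ℝ) with hN
  have hN0 : 0 < N := by rw [hN]; exact_mod_cast hNpos
  set n : ℝ := (Fintype.card V : ℝ) with hn
  obtain ⟨a, ha⟩ : ∃ a : ℝ, a = (∑ W ∈ CC G, (Wᶜ.card : ℝ)) / N := ⟨_, rfl⟩
  have hsum : ∑ W ∈ CC G, (Wᶜ.card : ℝ) = a * N := by
    rw [ha]; exact (div_mul_cancel₀ _ hN0.ne').symm
  have ha0 : 0 ≤ a := by
    rw [ha]; exact div_nonneg (sum_nonneg (fun _ _ => Nat.cast_nonneg _)) hN0.le
  rw [hsum]
  -- lower bound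
  obtain ⟨W, hW, hgood⟩ := exists_good hG
  have hlow := card_lower hG hdeg (mem_CC.1 hW)
  set k : ℕ := 3 * Wᶜ.card + 6 * (II G W).card with hk
  have hk9 : (k : ℝ) ≤ 9 * a := by
    have h1 : N * (k : ℝ) ≤ 9 * (a * N) := by
      rw [← hsum, hN]
      exact_mod_cast hgood
    have h2 : N * (k : ℝ) ≤ N * (9 * a) := by linarith
    exact le_of_mul_le_mul_left h2 hN0
  have hlog1 : n * Real.log 2 ≤ Real.log N + 9 * a * Real.log 2 := by
    have h1 : ((2 : ℝ) ^ (Fintype.card V)) ≤ N * 2 ^ k := by
      rw [hN]; exact_mod_cast hlow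
    have h2 := Real.log_le_log (by positivity) h1
    rw [Real.log_pow, Real.log_mul hN0.ne' (by positivity), Real.log_pow] at h2
    have h3 : (k : ℝ) * Real.log 2 ≤ 9 * a * Real.log 2 :=
      mul_le_mul_of_nonneg_right hk9 (Real.log_nonneg (by norm_num))
    linarith
  -- upper bound
  have hlog2 : Real.log N ≤ n * Real.log (14 / 13) + a * Real.log 13 := by
    have h1 : ∑ W ∈ CC G, (1 / 13 : ℝ) ^ (Wᶜ.card) ≤ (14 / 13 : ℝ) ^ (Fintype.card V) := by
      calc ∑ W ∈ CC G, (1 / 13 : ℝ) ^ (Wᶜ.card)
          ≤ ∑ W : Finset V, (1 / 13 : ℝ) ^ (Wᶜ.card) :=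
            sum_le_sum_of_subset_of_nonneg (subset_univ _) (fun _ _ _ => by positivity)
        _ = ∑ W ∈ (univ : Finset V).powerset, (1 : ℝ) ^ W.card *
              (1 / 13 : ℝ) ^ ((univ : Finset V).card - W.card) := by
            rw [powerset_univ]
            refine sum_congr rfl (fun W _ => ?_)
            rw [one_pow, one_mul, card_compl, card_univ]
        _ = (14 / 13 : ℝ) ^ (Fintype.card V) := by
            rw [sum_pow_mul_eq_add_pow, card_univ]
            norm_num
    have h2 : ∀ j : ℕ, Real.exp (-(a * Real.log 13)) * (1 - ((j : ℝ) - a) * Real.log 13) ≤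
        (1 / 13 : ℝ) ^ j := by
      intro j
      have e1 : (1 / 13 : ℝ) ^ j = Real.exp (-(a * Real.log 13)) *
          Real.exp (-(((j : ℝ) - a) * Real.log 13)) := by
        rw [← Real.exp_add, show -(a * Real.log 13) + -(((j : ℝ) - a) * Real.log 13) =
          (j : ℝ) * (-Real.log 13) by ring, mul_comm, Real.exp_mul, Real.exp_neg,
          Real.exp_log (by norm_num), Real.rpow_natCast]
        norm_num
      rw [e1]
      refine mul_le_mul_of_nonneg_left ?_ (Real.exp_pos _).le
      have := Real.add_one_le_exp (-(((j : ℝ) - a) * Real.log 13))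
      linarith
    have h3 : Real.exp (-(a * Real.log 13)) * N ≤ (14 / 13 : ℝ) ^ (Fintype.card V) := by
      refine le_trans ?_ h1
      have h4 := sum_le_sum (fun W (_ : W ∈ CC G) => h2 (Wᶜ.card))
      refine le_trans (le_of_eq ?_) h4
      rw [← mul_sum, sum_sub_distrib, ← sum_mul, sum_sub_distrib, hsum, sum_const, sum_const,
        nsmul_eq_mul, nsmul_eq_mul, ← hN]
      ring
    have h5 := Real.log_le_log (mul_pos (Real.exp_pos _) hN0) h3
    rw [Real.log_mul (Real.exp_pos _).ne' hN0.ne', Real.log_exp, Real.log_pow] at h5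
    linarith
  -- combine
  have hcomb : n * (Real.log 2 - Real.log (14 / 13)) ≤ a * (9 * Real.log 2 + Real.log 13) := by
    linarith
  have hA : 7 * (9 * Real.log 2 + Real.log 13) ≤ 100 * (Real.log 2 - Real.log (14 / 13)) := by
    have e1 : 9 * Real.log 2 + Real.log 13 = Real.log 6656 := by
      rw [← Real.log_rpow (by norm_num), ← Real.log_mul (by norm_num) (by norm_num)]
      norm_num
    have e2 : Real.log 2 - Real.log (14 / 13) = Real.log (13 / 7) := by
      rw [← Real.log_div (by norm_num) (by norm_num)]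
      norm_num
    rw [e1, e2]
    have e3 : 7 * Real.log 6656 = Real.log ((6656 : ℝ) ^ 7) := by
      rw [Real.log_pow]; norm_num
    have e4 : 100 * Real.log (13 / 7) = Real.log ((13 / 7 : ℝ) ^ 100) := by
      rw [Real.log_pow]; norm_num
    rw [e3, e4]
    apply Real.log_le_log (by positivity)
    rw [div_pow, le_div_iff₀ (by positivity)]
    norm_num
  have hpos : 0 < 9 * Real.log 2 + Real.log 13 := by
    have := Real.log_pos (show (1 : ℝ) < 2 by norm_num)
    have := Real.log_pos (show (1 : ℝ) < 13 by norm_num)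
    positivity
  have hn0 : 0 ≤ n := by rw [hn]; positivity
  have hfin : 7 / 100 * n ≤ a := by
    have h1 : (7 / 100 * n) * (9 * Real.log 2 + Real.log 13) ≤
        a * (9 * Real.log 2 + Real.log 13) := by nlinarith
    exact le_of_mul_le_mul_right h1 hpos
  exact mul_le_mul_of_nonneg_right hfin hN0.le

end Pool.Agent.R39
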