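import Mathlib

set_option autoImplicit false
set_option linter.unusedSectionVars false

/-! # A connected graph with few non-cut vertices is path-like -/

namespace Pool.Agent.R39

open Finset Classical

variable {α : Type} [Fintype α]

/-- the non-cut vertices -/
noncomputable def NC (H : SimpleGraph α) : Finset α :=
  univ.filter (fun v => (H.induce ({v}ᶜ : Set α)).Connected)

lemma mem_NC {H : SimpleGraph α} {v : α} :
    v ∈ NC H ↔ (H.induce ({v}ᶜ : Set α)).Connected := by simp [NC]

/-- a vertex of tree-degree two whose neighbour has an extra edge around it is a non-cut vertex -/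
lemma nc_of_detour {H T : SimpleGraph α} (hTH : T ≤ H) (hT : T.Connected) {v v' w : α}
    (hvv' : T.Adj v v') (hdeg : (T.neighborFinset v').card = 2)
    (hvw : H.Adj v w) (hw : w ≠ v') (q : T.Walk v w) (hq : q.IsPath) (hq1 : q.snd = v') :
    (H.induce ({v'}ᶜ : Set α)).Connected := by
  -- R = the vertices reachable from v in H - v'
  have hvne : v ≠ v' := hvv'.ne
  let R : Set α := {x | ∃ hx : x ∈ ({v'}ᶜ : Set α),
    (H.induce ({v'}ᶜ : Set α)).Reachable ⟨v, by simpa using hvne⟩ ⟨x, hx⟩}
  have hstep : ∀ a b : α, a ∈ R → b ≠ v' → H.Adj a b → b ∈ R := by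
    rintro a b ⟨ha, hr⟩ hb hab
    refine ⟨by simpa using hb, hr.trans (SimpleGraph.Adj.reachable ?_)⟩
    simpa using hab
  have hvR : v ∈ R := ⟨by simpa using hvne, SimpleGraph.Reachable.refl _⟩
  have hwR : w ∈ R := hstep v w hvR hw hvw
  -- the second neighbour of v'
  have hex : ∃ u : α, T.Adj v' u ∧ u ≠ v ∧ u ∈ R := by
    cases q with
    | nil => exact absurd rfl hvw.ne
    | cons h1 q1 =>
      rename_i x
      have hx : x = v' := by simpa using hq1
      subst hx
      cases q1 with
      | nil => exact absurd rfl hw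
      | cons h2 q2 =>
        rename_i u
        rw [SimpleGraph.Walk.cons_isPath_iff] at hq
        obtain ⟨hq2, hv⟩ := hq
        rw [SimpleGraph.Walk.cons_isPath_iff] at hq2
        obtain ⟨_, hx2⟩ := hq2
        refine ⟨u, h2, ?_, ?_⟩
        · rintro rfl
          apply hv
          rw [SimpleGraph.Walk.support_cons]
          exact List.mem_cons_of_mem _ q2.start_mem_support
        · by_contra hu
          obtain ⟨d, hd, hd1, hd2⟩ := q2.reverse.exists_boundary_dart R hwR hu
          apply hd2
          refine hstep _ _ hd1 ?_ (hTH d.adj)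
          intro he
          have h3 : d.snd ∈ q2.reverse.support := q2.reverse.dart_snd_mem_support_of_mem_darts hd
          rw [SimpleGraph.Walk.support_reverse, List.mem_reverse, he] at h3
          exact hx2 h3
  obtain ⟨u, hu1, hu2, huR⟩ := hex
  have hnb : ∀ x, T.Adj v' x → x ∈ R := by
    intro x hx
    have hsub : ({v, u} : Finset α) ⊆ T.neighborFinset v' := by
      intro y hy
      rw [mem_insert, mem_singleton] at hy
      rw [SimpleGraph.mem_neighborFinset]
      rcases hy with rfl | rfl
      · exact hvv'.symm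
      · exact hu1
    have heq : ({v, u} : Finset α) = T.neighborFinset v' := by
      apply eq_of_subset_of_card_le hsub
      rw [hdeg, card_pair hu2.symm]
    have hx' : x ∈ ({v, u} : Finset α) := by
      rw [heq, SimpleGraph.mem_neighborFinset]; exact hx
    rw [mem_insert, mem_singleton] at hx'
    rcases hx' with rfl | rfl
    · exact hvR
    · exact huR
  rw [SimpleGraph.connected_iff_exists_forall_reachable]
  refine ⟨⟨v, by simpa using hvne⟩, ?_⟩
  rintro ⟨z, hz⟩
  have hz' : z ≠ v' := by simpa using hz
  by_cases hzR : z ∈ R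
  · exact hzR.2
  · exfalso
    obtain ⟨p⟩ := hT.preconnected z v
    obtain ⟨d, hd, hd1, hd2⟩ := p.exists_boundary_dart {x | x ∉ R ∧ x ≠ v'} ⟨hzR, hz'⟩
      (fun h => h.1 hvR)
    have hd1' : d.fst ∉ R ∧ d.fst ≠ v' := hd1
    by_cases h : d.snd ∈ R
    · exact hd1'.1 (hstep _ _ h hd1'.2 (hTH d.adj).symm)
    · have h2 : d.snd = v' := by
        by_contra hne
        exact hd2 ⟨h, hne⟩
      have h3 : T.Adj v' d.fst := by rw [← h2]; exact d.adj.symm
      exact hd1'.1 (hnb _ h3)

/-- the structure lemma -/
lemma exists_struct (H : SimpleGraph α) (hH : H.Connected) (hc : 2 ≤ Fintype.card α) :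
    ∃ B : Finset α, B.card ≤ 2 * (NC H).card ∧
      ∀ v, v ∉ B → (∃ w ∈ B, H.Adj v w) ∨ (H.neighborFinset v).card ≤ 2 := by
  obtain ⟨T, hTH, hT⟩ := hH.exists_isTree_le
  haveI : Nontrivial α := Fintype.one_lt_card_iff_nontrivial.mp (by omega)
  have hpos : ∀ v, 1 ≤ T.degree v := fun v => hT.connected.preconnected.degree_pos_of_nontrivial v
  set L : Finset α := univ.filter (fun v => T.degree v = 1) with hL
  set Br : Finset α := univ.filter (fun v => 3 ≤ T.degree v) with hBr
  have hLNC : L ⊆ NC H := by
    intro v hv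
    rw [hL, mem_filter] at hv
    rw [mem_NC]
    have := hT.connected.induce_compl_singleton_of_degree_eq_one hv.2
    exact this.mono (by
      intro a b hab
      exact hTH hab)
  have hcardBr : Br.card ≤ L.card := by
    have h1 := T.sum_degrees_eq_twice_card_edges
    have h2 := hT.card_edgeFinset
    have h3 : ∀ v : α, (2 : ℤ) + (if 3 ≤ T.degree v then 1 else 0) ≤
        T.degree v + (if T.degree v = 1 then 1 else 0) := by
      intro v
      have := hpos v
      split_ifs <;> omega
    have h4 := sum_le_sum (fun v (_ : v ∈ (univ : Finset α)) => h3 v)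
    rw [sum_add_distrib, sum_add_distrib, sum_boole, sum_boole, sum_const, card_univ] at h4
    have h5 : (∑ v : α, (T.degree v : ℤ)) = 2 * (T.edgeFinset.card : ℤ) := by exact_mod_cast h1
    rw [h5] at h4
    rw [hL, hBr]
    simp only [nsmul_eq_mul] at h4
    have h6 : ((T.edgeFinset.card : ℤ)) + 1 = Fintype.card α := by exact_mod_cast h2
    have h7 : (Finset.card (univ.filter (fun v => 3 ≤ T.degree v)) : ℤ) ≤
      Finset.card (univ.filter (fun v => T.degree v = 1)) := by linarith
    exact_mod_cast h7
  refine ⟨NC H ∪ Br, ?_, ?_⟩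
  · have := card_union_le (NC H) Br
    have := card_le_card hLNC
    omega
  · intro v hv
    rw [mem_union, not_or] at hv
    obtain ⟨hv1, hv2⟩ := hv
    have hdv : T.degree v = 2 := by
      have h1 := hpos v
      have h2 : T.degree v ≠ 1 := fun h => hv1 (hLNC (by rw [hL, mem_filter]; exact ⟨mem_univ _, h⟩))
      have h3 : ¬ 3 ≤ T.degree v := fun h => hv2 (by rw [hBr, mem_filter]; exact ⟨mem_univ _, h⟩)
      omega
    by_contra hcon
    rw [not_or] at hcon
    obtain ⟨hc1, hc2⟩ := hcon
    push Not at hc1 hc2
    -- an H-neighbour which is not a T-neighbour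
    have hex : ∃ w, H.Adj v w ∧ ¬ T.Adj v w := by
      by_contra hno
      push Not at hno
      have hsub : H.neighborFinset v ⊆ T.neighborFinset v := by
        intro w hw
        rw [SimpleGraph.mem_neighborFinset] at hw ⊢
        exact hno w hw
      have := card_le_card hsub
      rw [SimpleGraph.card_neighborFinset_eq_degree T, hdv] at this
      omega
    obtain ⟨w, hw1, hw2⟩ := hex
    obtain ⟨q, hq⟩ := hT.connected.exists_isPath v w
    have hne : v ≠ w := hw1.ne
    have hnil : ¬ q.Nil := SimpleGraph.Walk.not_nil_of_ne hne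
    have hadj : T.Adj v q.snd := q.adj_snd hnil
    have hwne : w ≠ q.snd := by
      intro h
      rw [← h] at hadj
      exact hw2 hadj
    have hB' : q.snd ∉ NC H ∪ Br := fun h => hc1 _ h (hTH hadj)
    rw [mem_union, not_or] at hB'
    have hds : T.degree q.snd = 2 := by
      have h1 := hpos q.snd
      have h2 : T.degree q.snd ≠ 1 :=
        fun h => hB'.1 (hLNC (by rw [hL, mem_filter]; exact ⟨mem_univ _, h⟩))
      have h3 : ¬ 3 ≤ T.degree q.snd :=
        fun h => hB'.2 (by rw [hBr, mem_filter]; exact ⟨mem_univ _, h⟩)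
      omega
    apply hB'.1
    rw [mem_NC]
    exact nc_of_detour hTH hT.connected hadj
      (by rw [SimpleGraph.card_neighborFinset_eq_degree]; exact hds) hw1 hwne q hq rfl

end Pool.Agent.R39
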