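import Pool.Agent.R684.VG.Stm

set_option autoImplicit false

/-!
# Derivations of groups of given deficiency into permutation modules (piece ZD of project GP)
-/

namespace Pool.Agent.R39.GPZD

open Pool.Agent.R684.VG

namespace ZDaux

variable {X : Type} (rels : Set (FreeGroup X)) (H : Subgroup (PresentedGroup rels))

/-- the permutation module -/
abbrev Mm := (PresentedGroup rels ⧸ H) → ℂ

/-- the action on functions -/
def act (g : FreeGroup X) (m : Mm rels H) : Mm rels H :=
  fun x => m ((PresentedGroup.mk rels g)⁻¹ • x)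

lemma act_apply (g : FreeGroup X) (m : Mm rels H) (x : PresentedGroup rels ⧸ H) :
    act rels H g m x = m ((PresentedGroup.mk rels g)⁻¹ • x) := rfl

lemma act_mul (g h : FreeGroup X) (m : Mm rels H) :
    act rels H (g * h) m = act rels H g (act rels H h m) := by
  funext x
  rw [act_apply, act_apply, act_apply, map_mul, mul_inv_rev, mul_smul]

lemma act_of_one (g : FreeGroup X) (hg : PresentedGroup.mk rels g = 1) (m : Mm rels H) :
    act rels H g m = m := by
  funext x
  rw [act_apply, hg, inv_one, one_smul]

lemma act_one (m : Mm rels H) : act rels H 1 m = m := act_of_one rels H 1 (map_one _) m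

lemma act_inv_act (g : FreeGroup X) (m : Mm rels H) : act rels H g⁻¹ (act rels H g m) = m := by
  rw [← act_mul, inv_mul_cancel, act_one]

lemma act_act_inv (g : FreeGroup X) (m : Mm rels H) : act rels H g (act rels H g⁻¹ m) = m := by
  rw [← act_mul, mul_inv_cancel, act_one]

lemma act_add (g : FreeGroup X) (m n : Mm rels H) :
    act rels H g (m + n) = act rels H g m + act rels H g n := rfl
lemma act_sub (g : FreeGroup X) (m n : Mm rels H) :
    act rels H g (m - n) = act rels H g m - act rels H g n := rfl
lemma act_zero (g : FreeGroup X) : act rels H g 0 = 0 := rfl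

/-- affine permutation -/
def A1 (φ : Mm rels H) (g : FreeGroup X) : Equiv.Perm (Mm rels H) where
  toFun m := φ + act rels H g m
  invFun m := act rels H g⁻¹ (m - φ)
  left_inv m := by
    show act rels H g⁻¹ (φ + act rels H g m - φ) = m
    rw [add_sub_cancel_left, act_inv_act]
  right_inv m := by
    show φ + act rels H g (act rels H g⁻¹ (m - φ)) = m
    rw [act_act_inv, add_sub_cancel]

/-- the affine action -/
def Aff (φ : X → Mm rels H) : FreeGroup X →* Equiv.Perm (Mm rels H) :=
  FreeGroup.lift (fun x => A1 rels H (φ x) (FreeGroup.of x))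

lemma Aff_of (φ : X → Mm rels H) (x : X) (m : Mm rels H) :
    Aff rels H φ (FreeGroup.of x) m = φ x + act rels H (FreeGroup.of x) m := by
  unfold Aff
  rw [FreeGroup.lift_apply_of]
  rfl

lemma Aff_eq (φ : X → Mm rels H) (g : FreeGroup X) :
    ∀ m, Aff rels H φ g m = Aff rels H φ g 0 + act rels H g m := by
  have hinv : ∀ g : FreeGroup X, (∀ m, Aff rels H φ g m = Aff rels H φ g 0 + act rels H g m) →
      ∀ m, Aff rels H φ g⁻¹ m = Aff rels H φ g⁻¹ 0 + act rels H g⁻¹ m := by
    intro g hg
    have h1 : ∀ m, Aff rels H φ g⁻¹ m = act rels H g⁻¹ (m - Aff rels H φ g 0) := by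
      intro m
      have h2 : Aff rels H φ g (act rels H g⁻¹ (m - Aff rels H φ g 0)) = m := by
        rw [hg, act_act_inv, add_sub_cancel]
      rw [map_inv]
      rw [Equiv.Perm.inv_eq_iff_eq]
      exact h2.symm
    intro m
    rw [h1 m, h1 0, act_sub, act_sub, act_zero, zero_sub]
    abel
  induction g using FreeGroup.induction_on with
  | C1 => intro m; rw [map_one, act_one]; simp
  | of x =>
    intro m
    have e1 := Aff_of rels H φ x m
    have e2 := Aff_of rels H φ x 0
    rw [act_zero, add_zero] at e2
    exact e1.trans (by rw [← e2])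
  | inv_of x h => exact hinv _ h
  | mul g h hg hh =>
    intro m
    rw [map_mul, Equiv.Perm.mul_apply, Equiv.Perm.mul_apply, hg, hg (Aff rels H φ h 0), hh m,
      act_add, act_mul, add_assoc]

/-- derivations of the free group into the permutation module -/
def Z : Submodule ℂ (FreeGroup X → Mm rels H) where
  carrier := {c | ∀ g h : FreeGroup X, c (g * h) = c g + act rels H g (c h)}
  add_mem' := by
    intro c d hc hd g h
    rw [Pi.add_apply, hc g h, hd g h, Pi.add_apply, Pi.add_apply, act_add]
    abel
  zero_mem' := by intro g h; simp [act_zero]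
  smul_mem' := by
    intro a c hc g h
    rw [Pi.smul_apply, hc g h, Pi.smul_apply, Pi.smul_apply, smul_add]
    rfl

/-- evaluation on the generators -/
def ev : Z rels H →ₗ[ℂ] (X → Mm rels H) where
  toFun c := fun x => c.1 (FreeGroup.of x)
  map_add' _ _ := rfl
  map_smul' _ _ := rfl

lemma z_one (c : Z rels H) : c.1 1 = 0 := by
  have := c.2 1 1
  rw [mul_one, act_one] at this
  exact left_eq_add.mp this

lemma z_inv (c : Z rels H) (g : FreeGroup X) (hg : c.1 g = 0) : c.1 g⁻¹ = 0 := by
  have := c.2 g⁻¹ g
  rw [inv_mul_cancel, z_one, hg, act_zero, add_zero] at this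
  exact this.symm

lemma ev_inj : Function.Injective (ev rels H) := by
  rw [injective_iff_map_eq_zero]
  intro c hc
  apply Subtype.ext
  funext g
  show c.1 g = 0
  induction g using FreeGroup.induction_on with
  | C1 => exact z_one rels H c
  | of x => exact congrFun hc x
  | inv_of x h => exact z_inv rels H c _ h
  | mul g h hg hh => rw [c.2 g h, hg, hh, act_zero, add_zero]

lemma ev_surj : Function.Surjective (ev rels H) := by
  intro φ
  refine ⟨⟨fun g => Aff rels H φ g 0, ?_⟩, ?_⟩
  · intro g h
    show Aff rels H φ (g * h) 0 = _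
    rw [map_mul, Equiv.Perm.mul_apply, Aff_eq rels H φ g (Aff rels H φ h 0)]
  · funext x
    show Aff rels H φ (FreeGroup.of x) 0 = φ x
    rw [Aff_of, act_zero, add_zero]

/-- the normal subgroup on which a derivation vanishes -/
def N0 (c : Z rels H) : Subgroup (FreeGroup X) where
  carrier := {n | PresentedGroup.mk rels n = 1 ∧ c.1 n = 0}
  mul_mem' := by
    rintro a b ⟨ha, ha'⟩ ⟨hb, hb'⟩
    exact ⟨by rw [map_mul, ha, hb, mul_one], by rw [c.2, ha', hb', act_zero, add_zero]⟩
  one_mem' := ⟨map_one _, z_one rels H c⟩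
  inv_mem' := by
    rintro a ⟨ha, ha'⟩
    exact ⟨by rw [map_inv, ha, inv_one], z_inv rels H c _ ha'⟩

lemma N0_normal (c : Z rels H) : (N0 rels H c).Normal := by
  constructor
  rintro n ⟨hn, hn'⟩ g
  refine ⟨by rw [map_mul, map_mul, hn, mul_one, map_inv, mul_inv_cancel], ?_⟩
  rw [mul_assoc, c.2, c.2 n, hn', zero_add, act_of_one rels H n hn, ← c.2, mul_inv_cancel, z_one]

lemma z_ker (c : Z rels H) (hc : ∀ r ∈ rels, c.1 r = 0) (n : FreeGroup X)
    (hn : PresentedGroup.mk rels n = 1) : c.1 n = 0 := by
  haveI := N0_normal rels H c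
  have hle : Subgroup.normalClosure rels ≤ N0 rels H c := by
    apply Subgroup.normalClosure_le_normal
    intro r hr
    refine ⟨?_, hc r hr⟩
    exact (QuotientGroup.eq_one_iff r).2 (Subgroup.subset_normalClosure hr)
  exact (hle ((QuotientGroup.eq_one_iff n).1 hn)).2

lemma z_wd (c : Z rels H) (hc : ∀ r ∈ rels, c.1 r = 0) (g g' : FreeGroup X)
    (h : PresentedGroup.mk rels g = PresentedGroup.mk rels g') : c.1 g = c.1 g' := by
  have h1 : PresentedGroup.mk rels (g⁻¹ * g') = 1 := by
    rw [map_mul, map_inv, h, inv_mul_cancel]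
  have h2 := z_ker rels H c hc _ h1
  have h3 := c.2 g (g⁻¹ * g')
  rw [h2, act_zero, add_zero, mul_inv_cancel_left] at h3
  exact h3.symm

/-- inflation -/
def Th : Zp (PresentedGroup rels) H →ₗ[ℂ] Z rels H where
  toFun c := ⟨fun g => c.1 (PresentedGroup.mk rels g), by
    intro g h
    funext x
    have := c.2 (PresentedGroup.mk rels g) (PresentedGroup.mk rels h) x
    rw [← map_mul] at this
    exact this⟩
  map_add' _ _ := rfl
  map_smul' _ _ := rfl

lemma Th_inj : Function.Injective (Th rels H) := by
  intro c c' h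
  apply Subtype.ext
  funext l
  obtain ⟨g, rfl⟩ := PresentedGroup.mk_surjective rels l
  exact congrFun (congrArg Subtype.val h) g

lemma Th_range (c : Z rels H) (hc : ∀ r ∈ rels, c.1 r = 0) : c ∈ LinearMap.range (Th rels H) := by
  have hs := PresentedGroup.mk_surjective rels
  refine ⟨⟨fun l => c.1 (Function.surjInv hs l), ?_⟩, ?_⟩
  · intro g h x
    have e1 : c.1 (Function.surjInv hs (g * h)) =
        c.1 (Function.surjInv hs g * Function.surjInv hs h) := by
      apply z_wd rels H c hc
      rw [map_mul, Function.surjInv_eq hs, Function.surjInv_eq hs, Function.surjInv_eq hs]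
    show c.1 (Function.surjInv hs (g * h)) x = _
    rw [e1, c.2, Pi.add_apply, act_apply, Function.surjInv_eq hs]
  · apply Subtype.ext
    funext g
    show c.1 (Function.surjInv hs (PresentedGroup.mk rels g)) = c.1 g
    exact z_wd rels H c hc _ _ (Function.surjInv_eq hs _)

end ZDaux

open ZDaux

/-- Derivations of a finitely presented group into permutation modules. -/
def S_ZD : Prop := ∀ (X : Type) [Fintype X] (rels : Finset (FreeGroup X))
  (H : Subgroup (PresentedGroup (rels : Set (FreeGroup X)))) [H.FiniteIndex],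
  Fintype.card X * H.index ≤
    Module.finrank ℂ (Pool.Agent.R684.VG.Zp (PresentedGroup (rels : Set (FreeGroup X))) H) + rels.card * H.index

theorem t_ZD : S_ZD := by
  intro X _ rels H _
  classical
  have : Finite (PresentedGroup (rels : Set (FreeGroup X)) ⧸ H) := inferInstance
  have : Fintype (PresentedGroup (rels : Set (FreeGroup X)) ⧸ H) := Fintype.ofFinite _
  have e : Z (rels : Set (FreeGroup X)) H ≃ₗ[ℂ] (X → Mm (rels : Set (FreeGroup X)) H) :=
    LinearEquiv.ofBijective (ev _ H) ⟨ev_inj _ H, ev_surj _ H⟩
  have : FiniteDimensional ℂ (Z (rels : Set (FreeGroup X)) H) := e.symm.finiteDimensional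
  have hidx : H.index = Fintype.card (PresentedGroup (rels : Set (FreeGroup X)) ⧸ H) := by
    rw [Subgroup.index, Nat.card_eq_fintype_card]
  have hZ : Module.finrank ℂ (Z (rels : Set (FreeGroup X)) H) = Fintype.card X * H.index := by
    rw [e.finrank_eq, Module.finrank_pi_fintype, Finset.sum_const, Finset.card_univ,
      Module.finrank_fintype_fun_eq_card, smul_eq_mul, hidx]
  let ρ : Z (rels : Set (FreeGroup X)) H →ₗ[ℂ] (rels → Mm (rels : Set (FreeGroup X)) H) :=
    { toFun := fun c r => c.1 r.1
      map_add' := fun _ _ => rfl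
      map_smul' := fun _ _ => rfl }
  have h1 := LinearMap.finrank_range_add_finrank_ker ρ
  have h2 : Module.finrank ℂ (LinearMap.range ρ) ≤ rels.card * H.index := by
    refine (Submodule.finrank_le _).trans ?_
    rw [Module.finrank_pi_fintype, Finset.sum_const, Finset.card_univ,
      Module.finrank_fintype_fun_eq_card, smul_eq_mul, hidx, Fintype.card_coe]
  have h3 : Module.finrank ℂ (LinearMap.ker ρ) ≤
      Module.finrank ℂ (LinearMap.range (Th (rels : Set (FreeGroup X)) H)) := by
    apply Submodule.finrank_mono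
    intro c hc
    apply Th_range
    intro r hr
    exact congrFun (LinearMap.mem_ker.1 hc) ⟨r, hr⟩
  rw [LinearMap.finrank_range_of_inj (Th_inj _ H)] at h3
  omega

end Pool.Agent.R39.GPZD
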